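import Pool.Agent.Y223.G.Stm12

/-!
# W6-RWB: simple properties of the graded algebra `RW` (project G of helper223; by helper38)
-/

set_option autoImplicit false

namespace Pool.Agent.Y38.H.Rwb

open Pool.Agent.Y223.G

section

variable {k O K Ω : Type} [CommRing k] [CommRing O] [Field K] [Algebra k O] [Algebra O K]
  [Algebra k K] [IsScalarTower k O K] {𝔓 : Ideal O} {e : ℕ} {m : ℕ}
  {W : Ω → Fin (m + 1) → ℕ} {z : Ω → Fin (m + 1) → K} {d : ℕ} {Φ : Ω → K}

omit [Algebra k O] [IsScalarTower k O K] in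
lemma R_s : (hm (-1) 1 : LP K) ∈ RW k 𝔓 e W z d Φ :=
  Algebra.subset_adjoin (Or.inl (Or.inl (Or.inl rfl)))

omit [Algebra k O] [IsScalarTower k O K] in
lemma R_e {a : O} (ha : a ∈ 𝔓) : hm e (algebraMap O K a) ∈ RW k 𝔓 e W z d Φ :=
  Algebra.subset_adjoin (Or.inl (Or.inl (Or.inr ⟨a, ha, rfl⟩)))

omit [Algebra k O] [IsScalarTower k O K] in
lemma R_o (o : O) : hm 0 (algebraMap O K o) ∈ RW k 𝔓 e W z d Φ :=
  Algebra.subset_adjoin (Or.inl (Or.inr ⟨o, rfl⟩))

omit [Algebra k O] [IsScalarTower k O K] in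
lemma R_m (ω : Ω) (a : Fin (m + 1) → ℕ) (ha : ∑ j, a j = d) :
    hm ((∑ j, W ω j * a j : ℕ) : ℤ) ((∏ j, z ω j ^ a j) / Φ ω) ∈ RW k 𝔓 e W z d Φ :=
  Algebra.subset_adjoin (Or.inr ⟨ω, a, ha, rfl⟩)

omit [Algebra k O] [IsScalarTower k O K] in
/-- Lowering the degree. -/
lemma R_low {n : ℤ} {x : K} (h : hm n x ∈ RW k 𝔓 e W z d Φ) (j : ℕ) :
    hm (n - j) x ∈ RW k 𝔓 e W z d Φ := by
  have h1 := (RW k 𝔓 e W z d Φ).mul_mem ((RW k 𝔓 e W z d Φ).pow_mem R_s j) h
  rw [hm_pow, one_pow, hm_mul, one_mul] at h1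
  have h2 : (j : ℤ) * -1 + n = n - j := by ring
  rwa [h2] at h1

omit [Algebra k O] [IsScalarTower k O K] in
lemma R_gr : Gr (RW k 𝔓 e W z d Φ) := by
  apply gr_adjoin
  rintro f (((hf | ⟨a, -, rfl⟩) | ⟨o, rfl⟩) | ⟨ω, a, -, rfl⟩)
  · exact ⟨-1, 1, hf⟩
  · exact ⟨_, _, rfl⟩
  · exact ⟨_, _, rfl⟩
  · exact ⟨_, _, rfl⟩

omit [Algebra k O] [IsScalarTower k O K] in
/-- The powers of the ideal. -/
lemma R_epow (n : ℕ) {a : O} (ha : a ∈ 𝔓 ^ n) :
    hm ((e * n : ℕ) : ℤ) (algebraMap O K a) ∈ RW k 𝔓 e W z d Φ := by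
  induction n generalizing a with
  | zero =>
    have h := R_o (k := k) (𝔓 := 𝔓) (e := e) (W := W) (z := z) (d := d) (Φ := Φ) a
    rw [Nat.mul_zero]
    exact_mod_cast h
  | succ n ih =>
    rw [pow_succ] at ha
    refine Submodule.mul_induction_on ha ?_ ?_
    · intro x hx y hy
      have h1 := (RW k 𝔓 e W z d Φ).mul_mem (ih hx)
        (R_e (k := k) (e := e) (W := W) (z := z) (d := d) (Φ := Φ) hy)
      rw [hm_mul, ← map_mul] at h1
      have h2 : ((e * (n + 1) : ℕ) : ℤ) = ((e * n : ℕ) : ℤ) + (e : ℤ) := by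
        push_cast
        ring
      rw [h2]
      exact h1
    · intro x y hx hy
      rw [map_add, hm_add]
      exact (RW k 𝔓 e W z d Φ).add_mem hx hy

omit [Algebra k O] [IsScalarTower k O K] in
/-- Degree zero. -/
lemma R_c {c : K} (hc : c ∈ CG O z d Φ) : hm 0 c ∈ RW k 𝔓 e W z d Φ := by
  let S : Subalgebra O K :=
    { carrier := {c | hm 0 c ∈ RW k 𝔓 e W z d Φ}
      mul_mem' := by
        intro x y hx hy
        have h := (RW k 𝔓 e W z d Φ).mul_mem hx hy
        rw [hm_mul, add_zero] at h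
        exact h
      add_mem' := by
        intro x y hx hy
        have h := (RW k 𝔓 e W z d Φ).add_mem hx hy
        rw [← hm_add] at h
        exact h
      algebraMap_mem' := fun o => R_o o }
  have hle : CG O z d Φ ≤ S := by
    unfold CG
    refine iSup_le fun ω => ?_
    unfold AF
    rw [Algebra.adjoin_le_iff]
    rintro y ⟨x, ⟨a, ha, rfl⟩, rfl⟩
    have h := R_low (R_m (k := k) (𝔓 := 𝔓) (e := e) (W := W) (z := z) (Φ := Φ) ω a ha)
      (∑ j, W ω j * a j)
    rw [sub_self] at h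
    exact h
  exact hle hc

/-- The coefficients are in the chart. -/
lemma R_coeff {f : LP K} (hf : f ∈ RW k 𝔓 e W z d Φ) (n : ℤ) : f.coeff n ∈ CG O z d Φ := by
  classical
  set C := CG O z d Φ with hC
  let S : Subalgebra k (LP K) :=
    { carrier := {f | ∀ d, f.coeff d ∈ C}
      mul_mem' := by
        intro f g hf hg d
        rw [eq_sum_hm f, eq_sum_hm g, Finset.sum_mul_sum, AddMonoidAlgebra.coeff_sum,
          Finsupp.finsetSum_apply]
        refine C.sum_mem fun a _ => ?_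
        rw [AddMonoidAlgebra.coeff_sum, Finsupp.finsetSum_apply]
        refine C.sum_mem fun b _ => ?_
        rw [hm_mul, coeff_hm]
        split_ifs
        · exact C.mul_mem (hf a) (hg b)
        · exact C.zero_mem
      add_mem' := by
        intro f g hf hg d
        rw [AddMonoidAlgebra.coeff_add, Finsupp.add_apply]
        exact C.add_mem (hf d) (hg d)
      algebraMap_mem' := by
        intro r d
        rw [algebraMap_LP, coeff_hm]
        split_ifs
        · rw [IsScalarTower.algebraMap_apply k O K]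
          exact C.algebraMap_mem _
        · exact C.zero_mem }
  have hle : RW k 𝔓 e W z d Φ ≤ S := by
    unfold RW
    rw [Algebra.adjoin_le_iff]
    have key : ∀ (e : ℤ) (x : K), x ∈ C → hm e x ∈ S := by
      intro e x hx d
      rw [coeff_hm]
      split_ifs
      · exact hx
      · exact C.zero_mem
    rintro f (((hf | ⟨a, -, rfl⟩) | ⟨o, rfl⟩) | ⟨ω, a, ha, rfl⟩)
    · rw [hf]
      exact key _ _ C.one_mem
    · exact key _ _ (C.algebraMap_mem a)
    · exact key _ _ (C.algebraMap_mem o)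
    · refine key _ _ ?_
      have h1 : AF O (z ω) d (Φ ω) ≤ C := le_iSup (fun ω => AF O (z ω) d (Φ ω)) ω
      exact h1 (Algebra.subset_adjoin ⟨_, ⟨a, ha, rfl⟩, rfl⟩)
  exact hle hf n

/-- Finite type. -/
lemma R_ft [Finite Ω] (hO : Algebra.FiniteType k O) (hN : IsNoetherianRing O) :
    Algebra.FiniteType k (RW k 𝔓 e W z d Φ) := by
  classical
  obtain ⟨So, hSo⟩ := hO.out
  obtain ⟨Tp, hTp⟩ := (isNoetherianRing_iff_ideal_fg O).1 hN 𝔓
  rw [← Subalgebra.fg_iff_finiteType, Subalgebra.fg_def]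
  have hfin : {a : Fin (m + 1) → ℕ | ∑ j, a j = d}.Finite := by
    refine Set.Finite.subset (Fintype.piFinset fun _ : Fin (m + 1) =>
      Finset.range (d + 1)).finite_toSet ?_
    intro a ha
    rw [Finset.mem_coe, Fintype.mem_piFinset]
    intro j
    rw [Finset.mem_range]
    have h1 : a j ≤ ∑ j, a j := Finset.single_le_sum (fun _ _ => Nat.zero_le _) (Finset.mem_univ j)
    have h2 : ∑ j, a j = d := ha
    omega
  let G : Set (LP K) := {hm (-1) 1} ∪ (fun a => hm (e : ℤ) (algebraMap O K a)) '' (Tp : Set O) ∪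
    (fun o => hm 0 (algebraMap O K o)) '' (So : Set O) ∪
    (fun p : Ω × (Fin (m + 1) → ℕ) => hm ((∑ j, W p.1 j * p.2 j : ℕ) : ℤ)
      ((∏ j, z p.1 j ^ p.2 j) / Φ p.1)) '' (Set.univ ×ˢ {a | ∑ j, a j = d})
  refine ⟨G, ?_, ?_⟩
  · refine (((Set.finite_singleton _).union (Tp.finite_toSet.image _)).union
      (So.finite_toSet.image _)).union (Set.Finite.image _ (Set.finite_univ.prod hfin))
  · refine le_antisymm ?_ ?_
    · rw [Algebra.adjoin_le_iff]
      rintro f (((hf | ⟨a, ha, rfl⟩) | ⟨o, ho, rfl⟩) | ⟨⟨ω, a⟩, ha, rfl⟩)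
      · rw [hf]
        exact R_s
      · refine R_e ?_
        rw [← hTp]
        exact Submodule.subset_span ha
      · exact R_o o
      · exact R_m ω a ha.2
    · set R' := Algebra.adjoin k G with hR'
      have ho : ∀ o : O, hm 0 (algebraMap O K o) ∈ R' := by
        intro o
        let φ : O →ₐ[k] LP K := (zer k K).comp (IsScalarTower.toAlgHom k O K)
        have h1 : (⊤ : Subalgebra k O) ≤ R'.comap φ := by
          rw [← hSo, Algebra.adjoin_le_iff]
          intro o ho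
          exact Algebra.subset_adjoin (Or.inl (Or.inr ⟨o, ho, rfl⟩))
        exact h1 (Algebra.mem_top (x := o))
      unfold RW
      rw [Algebra.adjoin_le_iff]
      rintro f (((hf | ⟨a, ha, rfl⟩) | ⟨o, rfl⟩) | ⟨ω, a, ha, rfl⟩)
      · rw [hf]
        exact Algebra.subset_adjoin (Or.inl (Or.inl (Or.inl rfl)))
      · change hm (e : ℤ) (algebraMap O K a) ∈ R'
        rw [← hTp] at ha
        induction ha using Submodule.span_induction with
        | mem x hx => exact Algebra.subset_adjoin (Or.inl (Or.inl (Or.inr ⟨x, hx, rfl⟩)))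
        | zero =>
          rw [map_zero, hm_zero]
          exact R'.zero_mem
        | add x y _ _ hx hy =>
          rw [map_add, hm_add]
          exact R'.add_mem hx hy
        | smul b x _ hx =>
          have h2 := R'.mul_mem (ho b) hx
          rw [hm_mul, zero_add, ← map_mul] at h2
          exact h2
      · exact ho o
      · exact Algebra.subset_adjoin (Or.inr ⟨(ω, a), ⟨trivial, ha⟩, rfl⟩)

end

/-- **W6-RWB.** -/
theorem t_RWB : S_RWB := by
  intro k O K Ω _ _ _ _ _ _ _ _ 𝔓 e he m W z d Φ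
  refine ⟨fun c hc => R_c hc, fun n x hx => ?_, R_gr, R_s, fun a ha => ?_,
    fun n a ha => R_epow n ha, fun hO hN => R_ft hO hN⟩
  · have h := R_coeff hx n
    rwa [coeff_hm_same] at h
  · have h := R_low (R_e (k := k) (e := e) (W := W) (z := z) (d := d) (Φ := Φ) ha) (e - 1)
    have h2 : (e : ℤ) - ((e - 1 : ℕ) : ℤ) = 1 := by omega
    rwa [h2] at h

end Pool.Agent.Y38.H.Rwb
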