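import Pool.Agent.Y223.G.Stm12
import Pool.Agent.Y813.GS.Smaf

/-!
# W6-SMAL: the charts of forms with coefficients in `O` are smooth (adapted from
`Pool/Agent/Y813/GS/Smaf.lean` of helper813 by helper38)
-/

set_option autoImplicit false

namespace Pool.Agent.Y38.H.Smal

open Function IsLocalRing Pool.Agent.Y223.G Pool.Agent.Y813.GS

section smal

variable {k O K : Type} [CommRing k] [CommRing O] [Field K] [Algebra k O] [Algebra O K]
  [Algebra k K] [IsScalarTower k O K] (s : k)

lemma smal_aux (hinj : Injective (algebraMap O K)) (hs : algebraMap k K s ≠ 0) {m : ℕ}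
    (z : Fin (m + 1) → K) (hz : ∀ j, z j ≠ 0)
    (hsm : ∀ j (q : Ideal (AZ O z j)) [q.IsPrime], Algebra.IsSmoothAt O q)
    {d : ℕ} {F : K} (hd : 1 ≤ d) (hF : F ∈ FS O z d) (hF0 : F ≠ 0)
    (A : Subalgebra (OL O (K := K) s) K) (hA : A = AF (OL O (K := K) s) z d F)
    (q : Ideal A) [hq : q.IsPrime] (i : Fin (m + 1)) (huA : z i ^ d / F ∈ A)
    (hi : (⟨z i ^ d / F, huA⟩ : A) ∉ q) : Algebra.IsSmoothAt (OL O (K := K) s) q := by
  classical
  have hAinj : Injective (algebraMap A K) := Subtype.val_injective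
  have hOA : ∀ o : O, algebraMap O K o ∈ A := fun o =>
    A.algebraMap_mem (⟨algebraMap O K o, mem_OL s o⟩ : OL O (K := K) s)
  have hzd : z i ^ d ≠ 0 := pow_ne_zero _ (hz i)
  let u : A := ⟨z i ^ d / F, huA⟩
  have hu1 : (algebraMap A K u) = z i ^ d / F := rfl
  have hR'inj : Injective (algebraMap (AZ O z i) K) := Subtype.val_injective
  have hone : (1 : A) ∉ q := fun h => hq.ne_top ((Ideal.eq_top_iff_one q).2 h)
  -- the first inclusion
  have h1 : ∀ y : AZ O z i, algebraMap (AZ O z i) K y ∈ (psi hAinj q).range := by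
    rintro ⟨y, hy⟩
    change y ∈ (psi hAinj q).range
    unfold AZ at hy
    induction hy using Algebra.adjoin_induction with
    | mem y hy =>
      obtain ⟨j, rfl⟩ := hy
      have hm : z j * z i ^ (d - 1) ∈ MN z d := by
        have h2 := MN_mul z (MN_pow_z z j 1) (MN_pow_z z i (d - 1))
        rw [pow_one, Nat.add_sub_cancel' hd] at h2
        exact h2
      apply mem_range_psi
      refine ⟨⟨z j * z i ^ (d - 1) / F, by rw [hA]; exact MN_mem_AF z hm⟩, u, hi, ?_⟩
      change z j / z i * (z i ^ d / F) = z j * z i ^ (d - 1) / F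
      obtain ⟨c, rfl⟩ := Nat.exists_eq_add_of_le hd
      rw [Nat.add_sub_cancel_left, pow_add, pow_one]
      have := hz i
      field_simp
    | algebraMap o =>
      apply mem_range_psi
      refine ⟨⟨algebraMap O K o, hOA o⟩, 1, hone, ?_⟩
      rw [map_one, mul_one]; rfl
    | add x y _ _ hx hy => exact Subring.add_mem _ hx hy
    | mul x y _ _ hx hy => exact Subring.mul_mem _ hx hy
  -- the second inclusion
  have h2 : ∀ a : A, ∃ y w : AZ O z i, (∃ c d : A, c ∉ q ∧ d ∉ q ∧
      algebraMap (AZ O z i) K w * algebraMap A K d = algebraMap A K c) ∧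
      algebraMap A K a * algebraMap (AZ O z i) K w = algebraMap (AZ O z i) K y := by
    rintro ⟨a, ha⟩
    change ∃ y w : AZ O z i, (∃ c d : A, c ∉ q ∧ d ∉ q ∧
      algebraMap (AZ O z i) K w * algebraMap A K d = algebraMap A K c) ∧
      a * algebraMap (AZ O z i) K w = algebraMap (AZ O z i) K y
    rw [hA] at ha
    unfold AF at ha
    induction ha using Algebra.adjoin_induction with
    | mem a ha =>
      obtain ⟨x, hx, rfl⟩ := ha
      refine ⟨⟨x / z i ^ d, MN_div_mem z i hx⟩, ⟨F / z i ^ d, FS_div_mem' (k := O) (O := O) z i hF⟩,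
        ⟨1, u, hone, hi, ?_⟩, ?_⟩
      · rw [map_one, hu1]
        change F / z i ^ d * (z i ^ d / F) = 1
        field_simp
      · change x / F * (F / z i ^ d) = x / z i ^ d
        field_simp
    | algebraMap r =>
      obtain ⟨r, n, y, hr⟩ := r
      have hinvA : (algebraMap k K s ^ n)⁻¹ ∈ A :=
        A.algebraMap_mem (⟨_, inv_mem_OL hs n⟩ : OL O (K := K) s)
      refine ⟨algebraMap O _ y, algebraMap O _ (algebraMap k O s) ^ n,
        ⟨1, ⟨_, hinvA⟩, hone, ?_, ?_⟩, ?_⟩
      · intro hmem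
        apply hone
        have h3 : (1 : A) = ⟨_, hOA (algebraMap k O s ^ n)⟩ * ⟨_, hinvA⟩ := by
          apply Subtype.ext
          change (1 : K) = algebraMap O K (algebraMap k O s ^ n) * (algebraMap k K s ^ n)⁻¹
          rw [map_pow, ← IsScalarTower.algebraMap_apply k O K,
            mul_inv_cancel₀ (pow_ne_zero _ hs)]
        rw [h3]
        exact q.mul_mem_left _ hmem
      · rw [map_one, map_pow]
        change algebraMap O K (algebraMap k O s) ^ n * (algebraMap k K s ^ n)⁻¹ = 1
        rw [← IsScalarTower.algebraMap_apply k O K, mul_inv_cancel₀ (pow_ne_zero _ hs)]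
      · rw [map_pow]
        change r * algebraMap O K (algebraMap k O s) ^ n = algebraMap O K y
        rw [← IsScalarTower.algebraMap_apply k O K, mul_comm, hr]
    | add x y _ _ hx hy =>
      obtain ⟨y1, w1, ⟨c1, d1, hc1, hd1, e1⟩, f1⟩ := hx
      obtain ⟨y2, w2, ⟨c2, d2, hc2, hd2, e2⟩, f2⟩ := hy
      refine ⟨y1 * w2 + y2 * w1, w1 * w2, ⟨c1 * c2, d1 * d2, ?_, ?_, ?_⟩, ?_⟩
      · exact fun h => (hq.mem_or_mem h).elim hc1 hc2
      · exact fun h => (hq.mem_or_mem h).elim hd1 hd2
      · rw [map_mul, map_mul, map_mul, ← e1, ← e2]; ring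
      · rw [map_mul, map_add, map_mul, map_mul, ← f1, ← f2]; ring
    | mul x y _ _ hx hy =>
      obtain ⟨y1, w1, ⟨c1, d1, hc1, hd1, e1⟩, f1⟩ := hx
      obtain ⟨y2, w2, ⟨c2, d2, hc2, hd2, e2⟩, f2⟩ := hy
      refine ⟨y1 * y2, w1 * w2, ⟨c1 * c2, d1 * d2, ?_, ?_, ?_⟩, ?_⟩
      · exact fun h => (hq.mem_or_mem h).elim hc1 hc2
      · exact fun h => (hq.mem_or_mem h).elim hd1 hd2
      · rw [map_mul, map_mul, map_mul, ← e1, ← e2]; ring
      · rw [map_mul, map_mul, ← f1, ← f2]; ring
  obtain ⟨q', hq', e, he1, he2⟩ := key hAinj hR'inj q h1 h2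
  have hpinj := psi_inj hAinj q
  have hsm' := hsm i q'
  -- the algebra structures
  let _ : Algebra O (OL O (K := K) s) := (oM s).toAlgebra
  have hoM : ∀ o : O, ((algebraMap O (OL O (K := K) s) o : OL O (K := K) s) : K) =
      algebraMap O K o := fun _ => rfl
  let _ : Algebra O (Localization.AtPrime q) :=
    ((algebraMap (OL O (K := K) s) (Localization.AtPrime q)).comp (oM s)).toAlgebra
  have hst : IsScalarTower O (OL O (K := K) s) (Localization.AtPrime q) :=
    IsScalarTower.of_algebraMap_eq fun _ => rfl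
  have hpo : ∀ x : OL O (K := K) s, psi hAinj q (algebraMap _ _ x) = (x : K) := by
    intro x
    rw [IsScalarTower.algebraMap_apply (OL O (K := K) s) A (Localization.AtPrime q), psi_alg]
    rfl
  let e' : Localization.AtPrime q' ≃ₐ[O] Localization.AtPrime q :=
    AlgEquiv.ofRingEquiv (f := e) (by
      intro o
      apply hpinj
      rw [IsScalarTower.algebraMap_apply O (AZ O z i) (Localization.AtPrime q'), he1,
        IsScalarTower.algebraMap_apply O (OL O (K := K) s) (Localization.AtPrime q), hpo]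
      rfl)
  have hfs : Algebra.FormallySmooth O (Localization.AtPrime q') := hsm'
  have hfs2 : Algebra.FormallySmooth O (Localization.AtPrime q) :=
    Algebra.FormallySmooth.of_equiv e'
  have hloc : IsLocalization (Submonoid.powers (algebraMap k O s)) (OL O (K := K) s) := by
    refine ⟨?_, ?_, ?_⟩
    · rintro ⟨_, n, rfl⟩
      refine IsUnit.of_mul_eq_one ⟨_, inv_mem_OL hs n⟩ ?_
      apply Subtype.ext
      change algebraMap O K (algebraMap k O s ^ n) * (algebraMap k K s ^ n)⁻¹ = 1
      rw [map_pow, ← IsScalarTower.algebraMap_apply k O K, mul_inv_cancel₀ (pow_ne_zero _ hs)]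
    · rintro ⟨x, n, y, hx⟩
      refine ⟨(y, ⟨algebraMap k O s ^ n, n, rfl⟩), ?_⟩
      apply Subtype.ext
      change x * algebraMap O K (algebraMap k O s ^ n) = algebraMap O K y
      rw [map_pow, ← IsScalarTower.algebraMap_apply k O K, mul_comm, hx]
    · intro x y hxy
      refine ⟨1, ?_⟩
      have h3 : algebraMap O K x = algebraMap O K y := congrArg Subtype.val hxy
      rw [hinj h3]
  exact Algebra.FormallySmooth.localization_base (Submonoid.powers (algebraMap k O s))

/-- **W6-SMAL.** -/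
theorem t_SMAL : S_SMAL := by
  intro k O K _ _ _ _ _ _ _ _ hinj s hs m z hz hsm d F hd hF hF0 q hq
  obtain ⟨i, hi⟩ := exists_notMem (k := O) (B := OL O (K := K) s) z
    (fun c => ⟨⟨algebraMap O K c, mem_OL s c⟩, rfl⟩) hd hF hF0 q
  exact smal_aux s hinj hs z hz hsm hd hF hF0 _ rfl q i _ hi

end smal

end Pool.Agent.Y38.H.Smal
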